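import Pool.Agent.Helper15.T4.Stmts

set_option autoImplicit false

/-!
MP_e0a484_co, module EXT: a further cycle that meets a family of disjoint cycles has more new pairs
than new vertices.
-/

open Finset

namespace Pool.Agent.Helper78.T4

open Pool.Agent.Helper15.T4

/-- The pair number `i` of a cycle. -/
def extPr {n k : ℕ} (c : CycD n k) (i : Fin (k + 1)) : Sym2 (HE n) :=
  s(((c i).1, (c i).2.2), ((c (i + 1)).1, (c (i + 1)).2.1))

theorem ext_mem_E {n k : ℕ} (c : CycD n k) (e : Sym2 (HE n)) : e ∈ E c ↔ ∃ i, extPr c i = e := by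
  classical
  simp only [E, extPr, mem_image, mem_univ, true_and]

theorem ext_pr_mem {n k : ℕ} (c : CycD n k) (i : Fin (k + 1)) : extPr c i ∈ E c :=
  (ext_mem_E c _).2 ⟨i, rfl⟩

theorem ext_mem_EU {n : ℕ} {I : Type} [Fintype I] {κ : I → ℕ} (c : (i : I) → CycD n (κ i))
    (e : Sym2 (HE n)) : e ∈ EU c ↔ ∃ j, e ∈ E (c j) := by
  classical
  simp only [EU, mem_biUnion, mem_univ, true_and]

theorem ext_mem_cov {n : ℕ} (F : Finset (Sym2 (HE n))) (h : HE n) :
    h ∈ cov F ↔ ∃ e ∈ F, h ∈ e := by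
  classical
  simp only [cov, mem_filter, mem_univ, true_and]

theorem ext_mem_tv {n : ℕ} (F : Finset (Sym2 (HE n))) (h : HE n) (e : Sym2 (HE n)) (he : e ∈ F)
    (hh : h ∈ e) : h.1 ∈ tv F := by
  classical
  simp only [tv, mem_image]
  exact ⟨h, (ext_mem_cov F h).2 ⟨e, he, hh⟩, rfl⟩

theorem ext_mem_vs {n k : ℕ} (c : CycD n k) (v : Fin n) : v ∈ vs c ↔ ∃ i, (c i).1 = v := by
  classical
  simp only [vs, mem_image, mem_univ, true_and]

theorem ext_closed {k : ℕ} (P : Fin (k + 1) → Prop) (hs : ∀ i, P i → P (i + 1)) (i0 : Fin (k + 1))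
    (h0 : P i0) (i : Fin (k + 1)) : P i := by
  have key : ∀ m : ℕ, P (i0 + Fin.ofNat (k + 1) m) := by
    intro m
    induction m with
    | zero =>
      have h3 : i0 + Fin.ofNat (k + 1) 0 = i0 := by
        apply Fin.ext
        simp [Fin.ofNat]
      rw [h3]
      exact h0
    | succ m ih =>
      have h2 := hs _ ih
      have h3 : i0 + Fin.ofNat (k + 1) (m + 1) = i0 + Fin.ofNat (k + 1) m + 1 := by
        rw [add_assoc]
        have h4 : Fin.ofNat (k + 1) (m + 1) = Fin.ofNat (k + 1) m + 1 := by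
          apply Fin.ext
          simp [Fin.val_add, Fin.ofNat, Nat.add_mod]
        rw [h4]
      rw [h3]
      exact h2
  have h4 := key (i - i0).val
  have h5 : Fin.ofNat (k + 1) (i - i0).val = i - i0 := by
    apply Fin.ext
    simp [Fin.ofNat, Nat.mod_eq_of_lt (i - i0).isLt]
  rw [h5, add_sub_cancel] at h4
  exact h4

theorem ext_left_mem {n k : ℕ} (c : CycD n k) (i : Fin (k + 1)) :
    ((c i).1, (c i).2.2) ∈ extPr c i := by
  simp only [extPr, Sym2.mem_iff, true_or]

theorem ext_right_mem {n k : ℕ} (c : CycD n k) (i : Fin (k + 1)) :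
    ((c (i + 1)).1, (c (i + 1)).2.1) ∈ extPr c i := by
  simp only [extPr, Sym2.mem_iff, or_true]

/-- A valid cycle contained in another valid cycle is equal to it. -/
theorem ext_sub_eq (hSTR : ST_STR) {n k l : ℕ} (c' : CycD n k) (d : CycD n l) (hc : Valid c')
    (hd : Valid d) (hsub : E c' ⊆ E d) : E c' = E d := by
  classical
  obtain ⟨-, -, htc, -, hcc⟩ := hSTR n k c' hc
  obtain ⟨hmd, -, htd, -, hcd⟩ := hSTR n l d hd
  -- the half-edges of `d` at a vertex of `c'`
  have hcovsub : ∀ h, h ∈ cov (E c') → h ∈ cov (E d) := by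
    intro h hh
    obtain ⟨e, he, h2⟩ := (ext_mem_cov _ h).1 hh
    exact (ext_mem_cov _ h).2 ⟨e, hsub he, h2⟩
  have hstep : ∀ j, (d j).1 ∈ vs c' → extPr d j ∈ E c' := by
    intro j hj
    obtain ⟨i, hi⟩ := (ext_mem_vs c' _).1 hj
    have h1 : ((c' i).1, (c' i).2.1) ∈ cov (E d) :=
      hcovsub _ ((hcc _).2 ⟨i, Or.inl rfl⟩)
    have h2 : ((c' i).1, (c' i).2.2) ∈ cov (E d) :=
      hcovsub _ ((hcc _).2 ⟨i, Or.inr rfl⟩)
    have hne := hc.2 i
    have hx : ∀ x : Fin 3, ((c' i).1, x) ∈ cov (E d) → x = (d j).2.1 ∨ x = (d j).2.2 := by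
      intro x hx
      obtain ⟨j', hj'⟩ := (hcd _).1 hx
      rcases hj' with hj' | hj'
      · have e1 : (c' i).1 = (d j').1 := (Prod.mk.inj hj').1
        have e2 : x = (d j').2.1 := (Prod.mk.inj hj').2
        have e3 : j' = j := hd.1 (show (d j').1 = (d j).1 by rw [← e1, hi])
        subst e3
        exact Or.inl e2
      · have e1 : (c' i).1 = (d j').1 := (Prod.mk.inj hj').1
        have e2 : x = (d j').2.2 := (Prod.mk.inj hj').2
        have e3 : j' = j := hd.1 (show (d j').1 = (d j).1 by rw [← e1, hi])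
        subst e3
        exact Or.inr e2
    have h3 : ((d j).1, (d j).2.2) ∈ cov (E c') := by
      rcases hx _ h1 with a | a
      · rcases hx _ h2 with b | b
        · exact absurd (a.trans b.symm) hne
        · exact (hcc _).2 ⟨i, Or.inr (by rw [hi, b])⟩
      · exact (hcc _).2 ⟨i, Or.inl (by rw [hi, a])⟩
    obtain ⟨e, he, hm⟩ := (ext_mem_cov _ _).1 h3
    obtain ⟨f, -, huniq⟩ := hmd.2.2 ((d j).1, (d j).2.2) (hcovsub _ h3)
    have g1 := huniq e ⟨hsub he, hm⟩
    have g2 := huniq (extPr d j) ⟨ext_pr_mem d j, ext_left_mem d j⟩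
    rw [g2, ← g1]
    exact he
  have hall : ∀ j, (d j).1 ∈ vs c' := by
    have h0 : (c' 0).1 ∈ vs d := by
      rw [← htd]
      exact ext_mem_tv (E d) ((c' 0).1, (c' 0).2.2) _ (hsub (ext_pr_mem c' 0)) (ext_left_mem c' 0)
    obtain ⟨j0, hj0⟩ := (ext_mem_vs d _).1 h0
    refine ext_closed (fun j => (d j).1 ∈ vs c') ?_ j0 ?_
    · intro j hj
      rw [← htc]
      exact ext_mem_tv (E c') ((d (j + 1)).1, (d (j + 1)).2.1) _ (hstep j hj) (ext_right_mem d j)
    · exact (ext_mem_vs c' _).2 ⟨0, hj0.symm⟩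
  refine Subset.antisymm hsub ?_
  intro e he
  obtain ⟨j, rfl⟩ := (ext_mem_E d e).1 he
  exact hstep j (hall j)

theorem EXT (hSTR : ST_STR) (hSTRU : ST_STRU) : ST_EXT := by
  classical
  intro n I _ κ c k c' hD hV hne _ hmeet
  obtain ⟨-, hcU, htU, -, -⟩ := hSTRU n I κ c hD
  obtain ⟨-, hcE, -, hcv, -⟩ := hSTR n k c' hV
  by_contra hlt
  set U : Finset (Sym2 (HE n)) := EU c with hUdef
  -- new pairs and new vertices
  let N : Finset (Fin (k + 1)) := univ.filter (fun i => extPr c' i ∉ U)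
  let V : Finset (Fin (k + 1)) := univ.filter (fun i => (c' i).1 ∉ tv U)
  have hVN : V ⊆ N := by
    intro i hi
    simp only [V, N, mem_filter, mem_univ, true_and] at hi ⊢
    intro hp
    exact hi (ext_mem_tv U ((c' i).1, (c' i).2.2) _ hp (ext_left_mem c' i))
  have himE : E c' = univ.image (extPr c') := by
    ext e
    rw [ext_mem_E]
    simp only [mem_image, mem_univ, true_and]
  have hinj : Set.InjOn (extPr c') ((univ : Finset (Fin (k + 1))) : Set (Fin (k + 1))) := by
    apply Finset.injOn_of_card_image_eq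
    rw [← himE, hcE, card_univ, Fintype.card_fin]
  have hN : (E c' \ U).card = N.card := by
    have h1 : E c' \ U = N.image (extPr c') := by
      ext e
      simp only [N, mem_sdiff, mem_image, mem_filter, mem_univ, true_and]
      constructor
      · rintro ⟨he, hu⟩
        obtain ⟨i, rfl⟩ := (ext_mem_E c' e).1 he
        exact ⟨i, hu, rfl⟩
      · rintro ⟨i, hi, rfl⟩
        exact ⟨ext_pr_mem c' i, hi⟩
    rw [h1]
    exact card_image_of_injOn (hinj.mono (by intro x _; exact mem_coe.2 (mem_univ x)))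
  have hVc : (vs c' \ tv U).card ≤ V.card := by
    have h1 : vs c' \ tv U ⊆ V.image (fun i => (c' i).1) := by
      intro v hv
      rw [mem_sdiff] at hv
      obtain ⟨i, rfl⟩ := (ext_mem_vs c' v).1 hv.1
      simp only [V, mem_image, mem_filter, mem_univ, true_and]
      exact ⟨i, hv.2, rfl⟩
    exact (card_le_card h1).trans card_image_le
  have hc1 : (U ∪ E c').card = U.card + (E c' \ U).card := by
    rw [← card_union_of_disjoint disjoint_sdiff, union_sdiff_self_eq_union]
  have hc2 : (tv U ∪ vs c').card = (tv U).card + (vs c' \ tv U).card := by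
    rw [← card_union_of_disjoint disjoint_sdiff, union_sdiff_self_eq_union]
  have hle : N.card ≤ V.card := by
    have : U.card = (tv U).card := by rw [hcU, htU]
    omega
  have hVN2 : V = N := eq_of_subset_of_card_le hVN hle
  have hall : ∀ i, (c' i).1 ∈ tv U := by
    obtain ⟨v, hv1, hv2⟩ := not_disjoint_iff.1 hmeet
    obtain ⟨i0, hi0⟩ := (ext_mem_vs c' v).1 hv1
    refine ext_closed (fun i => (c' i).1 ∈ tv U) ?_ i0 (by rw [hi0]; exact hv2)
    intro i hi
    have h1 : i ∉ V := by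
      simp only [V, mem_filter, mem_univ, true_and, not_not]
      exact hi
    rw [hVN2] at h1
    simp only [N, mem_filter, mem_univ, true_and, not_not] at h1
    exact ext_mem_tv U ((c' (i + 1)).1, (c' (i + 1)).2.1) _ h1 (ext_right_mem c' i)
  have hpair : ∀ i, extPr c' i ∈ U := by
    intro i
    have h1 : i ∉ V := by
      simp only [V, mem_filter, mem_univ, true_and, not_not]
      exact hall i
    rw [hVN2] at h1
    simp only [N, mem_filter, mem_univ, true_and, not_not] at h1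
    exact h1
  obtain ⟨j, hj⟩ := (ext_mem_EU c _).1 (hpair 0)
  have hvsj : ∀ j, ∀ h : HE n, ∀ e ∈ E (c j), h ∈ e → h.1 ∈ vs (c j) := by
    intro j h e he hh
    obtain ⟨-, -, ht, -, -⟩ := hSTR n (κ j) (c j) (hD.1 j)
    rw [← ht]
    exact ext_mem_tv _ h e he hh
  have hsub : ∀ i, extPr c' i ∈ E (c j) := by
    refine ext_closed (fun i => extPr c' i ∈ E (c j)) ?_ 0 hj
    intro i hi
    obtain ⟨j', hj'⟩ := (ext_mem_EU c _).1 (hpair (i + 1))
    have h1 := hvsj j _ _ hi (ext_right_mem c' i)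
    have h2 := hvsj j' _ _ hj' (ext_left_mem c' (i + 1))
    by_cases hjj : j = j'
    · subst hjj
      exact hj'
    · exact absurd h2 (disjoint_left.1 (hD.2 j j' hjj) h1)
  refine hne j (ext_sub_eq hSTR c' (c j) hV (hD.1 j) ?_)
  intro e he
  obtain ⟨i, rfl⟩ := (ext_mem_E c' e).1 he
  exact hsub i

end Pool.Agent.Helper78.T4
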